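import Pool.Agent.Lib.MP_e6e31f_co.Mg.G005

/-!
From strategies of the two-player hat game to maps into the vectors of weight two.
-/

open Finset Matrix

namespace Pool.Agent.Lib.MP_e6e31f_co

variable {h : ℕ}

/-- Of the four games played with a stack or its complement, at most one is won, except that two
may be won if both pairs of relevant hats differ. -/
theorem four_le (a0 a1 b0 b1 : ZMod 2) :
    nz a0 * nz b0 + nz (a0 + 1) * nz b1 + (nz a1 * nz (b0 + 1) + nz (a1 + 1) * nz (b1 + 1)) ≤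
      1 + nz (a0 + a1) * nz (b0 + b1) := by
  have key : ∀ a0 a1 b0 b1 : ZMod 2,
      ((if a0 = 0 then 0 else 1 : ℕ) * (if b0 = 0 then 0 else 1) +
      (if a0 + 1 = 0 then 0 else 1) * (if b1 = 0 then 0 else 1) +
      ((if a1 = 0 then 0 else 1) * (if b0 + 1 = 0 then 0 else 1) +
      (if a1 + 1 = 0 then 0 else 1) * (if b1 + 1 = 0 then 0 else 1))) ≤
      1 + (if a0 + a1 = 0 then 0 else 1) * (if b0 + b1 = 0 then 0 else 1) := by decide
  have := key a0 a1 b0 b1
  unfold nz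
  exact_mod_cast this

/-- the sum of two unit vectors -/
def ee (i j : Fin h) : Vc h := Pi.single i 1 + Pi.single j 1

theorem dot_ee (s : Vc h) (i j : Fin h) : s ⬝ᵥ ee i j = s i + s j := by
  unfold ee
  rw [dotProduct_add, dotProduct_single, dotProduct_single, mul_one, mul_one]

theorem wt_ee {i j : Fin h} (hij : i ≠ j) : wt (ee i j) = 2 := by
  unfold wt
  have : ∀ k : Fin h, (if ee i j k = 0 then 0 else 1 : ℕ) =
      (if k = i then 1 else 0) + (if k = j then 1 else 0) := by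
    intro k
    unfold ee
    by_cases h1 : k = i
    · subst h1
      simp [hij]
    · by_cases h2 : k = j
      · subst h2
        simp [h1]
      · simp [h1, h2]
  rw [sum_congr rfl fun k _ => this k, sum_add_distrib]
  simp

/-- the pair of hats named against `t` and its complement, made distinct -/
def pr (i₀ j₀ : Fin h) (F : Vc h → Fin h) (t : Vc h) : Vc h :=
  if F t = F (t + 1) then ee i₀ j₀ else ee (F t) (F (t + 1))

theorem wt_pr {i₀ j₀ : Fin h} (h0 : i₀ ≠ j₀) (F : Vc h → Fin h) (t : Vc h) :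
    wt (pr i₀ j₀ F t) = 2 := by
  unfold pr
  split_ifs with h1
  · exact wt_ee h0
  · exact wt_ee h1

theorem nz_le_pr (i₀ j₀ : Fin h) (F : Vc h → Fin h) (s t : Vc h) :
    nz (s (F t) + s (F (t + 1))) ≤ nz (s ⬝ᵥ pr i₀ j₀ F t) := by
  unfold pr
  split_ifs with h1
  · rw [← h1, CharTwo.add_self_eq_zero, nz_zero]
    exact nz_nonneg _
  · rw [dot_ee]

theorem nz_add_eq (a b : ZMod 2) : nz a * nz b = (nz a + nz b - nz (a + b)) / 2 := by
  have key : ∀ a b : ZMod 2, 2 * ((if a = 0 then 0 else 1 : ℤ) * (if b = 0 then 0 else 1)) =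
      (if a = 0 then 0 else 1) + (if b = 0 then 0 else 1) - (if a + b = 0 then 0 else 1) := by
    decide
  have := key a b
  have h2 : 2 * (nz a * nz b) = nz a + nz b - nz (a + b) := by
    unfold nz
    exact_mod_cast this
  linarith

theorem nz_le_one (a : ZMod 2) : nz a ≤ 1 := by unfold nz; split_ifs <;> norm_num

theorem sum_nz_dot' (w : Vc h) (hw : wt w = 2) :
    ∑ s : Vc h, nz (s ⬝ᵥ w) = (Fintype.card (Vc h) : ℝ) / 2 := by
  have hw0 : w ≠ 0 := by
    rintro rfl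
    simp [wt] at hw
  have := sum_nz_dot w hw0
  rw [sum_sub_distrib] at this
  simp only [sum_const, card_univ, nsmul_eq_mul, mul_one] at this
  linarith

/-- Both pairs differ with probability at most `7/16`. -/
theorem both_le {φ ψ : Vc h → Vc h} (hφ : ∀ x, wt (φ x) = 2) (hψ : ∀ x, wt (ψ x) = 2) :
    ∑ s : Vc h, ∑ t : Vc h, nz (s ⬝ᵥ φ t) * nz (t ⬝ᵥ ψ s) ≤
      7 / 16 * (Fintype.card (Vc h) : ℝ) ^ 2 := by
  have g := grid φ ψ hφ hψ
  have e : ∀ s t : Vc h, nz (s ⬝ᵥ φ t) * nz (t ⬝ᵥ ψ s) =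
      1 / 2 * nz (s ⬝ᵥ φ t) + 1 / 2 * nz (t ⬝ᵥ ψ s) - 1 / 2 * nz (Df φ ψ s t) := by
    intro s t
    rw [nz_add_eq]
    unfold Df
    rw [dotProduct_comm (ψ s) t]
    ring
  have e2 : ∑ s : Vc h, ∑ t : Vc h, nz (s ⬝ᵥ φ t) * nz (t ⬝ᵥ ψ s) =
      1 / 2 * ∑ s : Vc h, ∑ t : Vc h, nz (s ⬝ᵥ φ t) +
      1 / 2 * ∑ s : Vc h, ∑ t : Vc h, nz (t ⬝ᵥ ψ s) -
      1 / 2 * ∑ s : Vc h, ∑ t : Vc h, nz (Df φ ψ s t) := by
    simp only [e, mul_sum, sum_add_distrib, sum_sub_distrib]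
  have e3 : ∑ s : Vc h, ∑ t : Vc h, nz (s ⬝ᵥ φ t) = (Fintype.card (Vc h) : ℝ) ^ 2 / 2 := by
    rw [sum_comm, sum_congr rfl fun t _ => sum_nz_dot' _ (hφ t)]
    simp only [sum_const, card_univ, nsmul_eq_mul]
    ring
  have e4 : ∑ s : Vc h, ∑ t : Vc h, nz (t ⬝ᵥ ψ s) = (Fintype.card (Vc h) : ℝ) ^ 2 / 2 := by
    rw [sum_congr rfl fun s _ => sum_nz_dot' _ (hψ s)]
    simp only [sum_const, card_univ, nsmul_eq_mul]
    ring
  rw [e2, e3, e4]
  linarith

/-- The bound in terms of `ZMod 2`. -/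
theorem game2 (F G : Vc h → Fin h) :
    ∑ s : Vc h, ∑ t : Vc h, nz (s (F t)) * nz (t (G s)) ≤
      23 / 64 * (Fintype.card (Vc h) : ℝ) ^ 2 := by
  obtain ⟨w, hw⟩ : ∃ w : ℝ, w = ∑ s : Vc h, ∑ t : Vc h, nz (s (F t)) * nz (t (G s)) := ⟨_, rfl⟩
  -- replace `s` by `s + 1` and/or `t` by `t + 1`
  have w1 : ∑ s : Vc h, ∑ t : Vc h, nz (s (F t) + 1) * nz (t (G (s + 1))) = w := by
    rw [hw]
    exact Fintype.sum_equiv (Equiv.addRight (1 : Vc h)) _ _ (fun s => rfl)
  have w2 : ∑ s : Vc h, ∑ t : Vc h, nz (s (F (t + 1))) * nz (t (G s) + 1) = w := by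
    rw [hw]
    refine sum_congr rfl fun s _ => ?_
    exact Fintype.sum_equiv (Equiv.addRight (1 : Vc h)) _ _ (fun t => rfl)
  have w3 : ∑ s : Vc h, ∑ t : Vc h, nz (s (F (t + 1)) + 1) * nz (t (G (s + 1)) + 1) = w := by
    rw [← w2]
    exact Fintype.sum_equiv (Equiv.addRight (1 : Vc h)) _ _ (fun s => rfl)
  have h4 : 4 * w ≤ ∑ s : Vc h, ∑ t : Vc h,
      (1 + nz (s (F t) + s (F (t + 1))) * nz (t (G s) + t (G (s + 1)))) := by
    have e : 4 * w = ∑ s : Vc h, ∑ t : Vc h, (nz (s (F t)) * nz (t (G s)) +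
        nz (s (F t) + 1) * nz (t (G (s + 1))) + (nz (s (F (t + 1))) * nz (t (G s) + 1) +
        nz (s (F (t + 1)) + 1) * nz (t (G (s + 1)) + 1))) := by
      simp only [sum_add_distrib]
      rw [← hw, w1, w2, w3]
      ring
    rw [e]
    exact sum_le_sum fun s _ => sum_le_sum fun t _ => four_le _ _ _ _
  have h5 : ∑ s : Vc h, ∑ t : Vc h,
      nz (s (F t) + s (F (t + 1))) * nz (t (G s) + t (G (s + 1))) ≤
      7 / 16 * (Fintype.card (Vc h) : ℝ) ^ 2 := by
    by_cases h2 : ∃ i₀ j₀ : Fin h, i₀ ≠ j₀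
    · obtain ⟨i₀, j₀, h0⟩ := h2
      refine le_trans ?_ (both_le (wt_pr h0 F) (wt_pr h0 G))
      exact sum_le_sum fun s _ => sum_le_sum fun t _ =>
        mul_le_mul (nz_le_pr i₀ j₀ F s t) (nz_le_pr i₀ j₀ G t s) (nz_nonneg _) (nz_nonneg _)
    · push Not at h2
      have : ∀ s t : Vc h, nz (s (F t) + s (F (t + 1))) * nz (t (G s) + t (G (s + 1))) = 0 := by
        intro s t
        rw [h2 (F t) (F (t + 1)), CharTwo.add_self_eq_zero, nz_zero, zero_mul]
      simp only [this, sum_const_zero]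
      positivity
  have h6 : ∑ s : Vc h, ∑ t : Vc h,
      (1 + nz (s (F t) + s (F (t + 1))) * nz (t (G s) + t (G (s + 1)))) =
      (Fintype.card (Vc h) : ℝ) ^ 2 + ∑ s : Vc h, ∑ t : Vc h,
      nz (s (F t) + s (F (t + 1))) * nz (t (G s) + t (G (s + 1))) := by
    simp only [sum_add_distrib, sum_const, card_univ, nsmul_eq_mul, mul_one]
    ring
  rw [h6] at h4
  rw [← hw]
  linarith

theorem card_Vc : (Fintype.card (Vc h) : ℝ) = 2 ^ h := by
  simp [Vc]

/-- stacks as vectors over `ZMod 2` -/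
def toBool (h : ℕ) : Vc h ≃ (Fin h → Bool) :=
  Equiv.piCongrRight fun _ => (finTwoEquiv : Fin 2 ≃ Bool)

theorem toBool_apply (s : Vc h) (i : Fin h) : toBool h s i = true ↔ s i ≠ 0 := by
  have : ∀ a : Fin 2, finTwoEquiv a = true ↔ a ≠ 0 := by decide
  exact this (s i)

theorem game (f g : (Fin h → Bool) → Fin h) :
    ((Finset.univ.filter (fun p : (Fin h → Bool) × (Fin h → Bool) =>
      p.1 (f p.2) = true ∧ p.2 (g p.1) = true)).card : ℝ) / (4 : ℝ) ^ h ≤ 23 / 64 := by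
  have k := game2 (fun t => f (toBool h t)) (fun s => g (toBool h s))
  rw [card_Vc] at k
  have e : ((Finset.univ.filter (fun p : (Fin h → Bool) × (Fin h → Bool) =>
      p.1 (f p.2) = true ∧ p.2 (g p.1) = true)).card : ℝ) =
      ∑ s : Vc h, ∑ t : Vc h, nz (s (f (toBool h t))) * nz (t (g (toBool h s))) := by
    rw [card_filter]
    push_cast
    rw [Fintype.sum_prod_type]
    symm
    refine Fintype.sum_equiv (toBool h) _ _ (fun s => ?_)
    refine Fintype.sum_equiv (toBool h) _ _ (fun t => ?_)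
    simp only [toBool_apply]
    unfold nz
    split_ifs <;> simp_all
  rw [e, div_le_iff₀ (by positivity)]
  calc _ ≤ _ := k
    _ = _ := by
      have : ((2 : ℝ) ^ h) ^ 2 = 4 ^ h := by
        rw [← pow_mul, mul_comm, pow_mul]; norm_num
      rw [this]

end Pool.Agent.Lib.MP_e6e31f_co
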